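import Pool.Agent.Work.MP_6dc561_nt.PS.Defs

/-!
# Definitions for the comparison over residue classes and abelian fields
-/

open Polynomial NumberField IsDedekindDomain Finset

namespace Pool.Agent.Work.MP_6dc561_nt.AB

open Pool.Agent.Work.MP_6dc561_nt.AA

/-- The residue class of the natural number `p` modulo `q` lies in the coset `a H`. -/
def InCoset {q : ℕ} (H : Subgroup (ZMod q)ˣ) (a : (ZMod q)ˣ) (p : ℕ) : Prop :=
  ∃ u ∈ H, (p : ZMod q) = (a : ZMod q) * (u : ZMod q)

open Classical in
/-- The average, over the primes `p ≤ x` of good reduction of `y² = f(x)` whose residue class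
modulo `q` lies in the coset `a H`, of `G (a_p/√p, b_p/p)`. -/
noncomputable def cosetAvg (f : ℤ[X]) {q : ℕ} (H : Subgroup (ZMod q)ˣ) (a : (ZMod q)ˣ)
    (G : ℝ → ℝ → ℝ) (x : ℕ) : ℝ :=
  (∑ p ∈ (goodUpToQ f 1 x).filter (InCoset H a), G (aQ f 1 p / Real.sqrt p) (bQ f 1 p / p)) /
    ((goodUpToQ f 1 x).filter (InCoset H a)).card

/-- The Dirichlet character `χ` modulo `r` is a character of the abelian number field `K`: all but
finitely many of the prime numbers `p` that are the norm of a prime of `K` satisfy `χ(p) = 1`. -/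
def IsCharOf (K : Type*) [Field K] [NumberField K] {r : ℕ} (χ : DirichletCharacter ℂ r) : Prop :=
  {p : ℕ | p.Prime ∧ (∃ v : HeightOneSpectrum (𝓞 K), nrm v = p) ∧ χ (p : ZMod r) ≠ 1}.Finite

end Pool.Agent.Work.MP_6dc561_nt.AB
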