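import Pool.Agent.Work.MP_6dc561_nt.AB.Main
import Pool.Agent.Work.MP_6dc561_nt.AB.Defs

/-!
# Residue classes
-/

set_option autoImplicit false

open Polynomial Finset DirichletCharacter

namespace Pool.Agent.Work.MP_6dc561_nt.AB

open Pool.Agent.Work.MP_6dc561_nt.AA
open Pool.Agent.Work.MP_6dc561_nt.PS (LipR)

variable {q : ℕ} [NeZero q]

open scoped Classical in
/-- the characters modulo `q` that are trivial on the subgroup `H` -/
noncomputable def ann (H : Subgroup (ZMod q)ˣ) : Finset (DirichletCharacter ℂ q) :=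
  univ.filter fun χ => ∀ u ∈ H, χ (u : ZMod q) = 1

theorem mem_ann {H : Subgroup (ZMod q)ˣ} {χ : DirichletCharacter ℂ q} :
    χ ∈ ann H ↔ ∀ u ∈ H, χ (u : ZMod q) = 1 := by
  classical
  unfold ann
  rw [mem_filter]
  exact ⟨fun h => h.2, fun h => ⟨mem_univ _, h⟩⟩

theorem card_ann (H : Subgroup (ZMod q)ˣ) : (ann H).card = H.index := by
  have h1 := MulChar.card_subgroupOrderIsoSubgroupMulChar (M := ZMod q) (R := ℂ) (H := H)
  rw [Subgroup.index_eq_card, ← h1, ← Nat.card_eq_finsetCard]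
  refine Nat.card_congr (Equiv.subtypeEquivRight fun χ => ?_)
  rw [mem_ann]
  exact (MulChar.mem_subgroupOrderIsoSubgroupMulChar_iff).symm

theorem sum_ann (H : Subgroup (ZMod q)ˣ) (u : (ZMod q)ˣ) [Decidable (u ∈ H)] :
    ∑ χ ∈ ann H, χ (u : ZMod q) = if u ∈ H then (H.index : ℂ) else 0 := by
  classical
  split_ifs with hu
  · rw [← card_ann, sum_congr rfl fun χ hχ => mem_ann.1 hχ u hu]
    simp
  · obtain ⟨χ₁, h1, h2⟩ : ∃ χ ∈ ann H, χ (u : ZMod q) ≠ 1 := by
      by_contra hall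
      push Not at hall
      apply hu
      have h := (MulChar.mem_subgroupOrderIsoSubgroupMulChar_symm_iff (M := ZMod q) (R := ℂ)
        (X := (MulChar.subgroupOrderIsoSubgroupMulChar (ZMod q) ℂ H).ofDual) (m := u)).2 (by
          intro χ hχ
          rw [MulChar.mem_subgroupOrderIsoSubgroupMulChar_iff] at hχ
          exact hall χ (mem_ann.2 hχ))
      simpa using h
    have key : ∑ χ ∈ ann H, χ (u : ZMod q) = χ₁ (u : ZMod q) * ∑ χ ∈ ann H, χ (u : ZMod q) := by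
      rw [mul_sum]
      refine sum_bij' (fun χ _ => χ₁⁻¹ * χ) (fun χ _ => χ₁ * χ) ?_ ?_ ?_ ?_ ?_
      · intro χ hχ
        rw [mem_ann] at hχ h1 ⊢
        intro v hv
        rw [MulChar.mul_apply, hχ v hv, mul_one, MulChar.inv_apply_eq_inv', h1 v hv, inv_one]
      · intro χ hχ
        rw [mem_ann] at hχ h1 ⊢
        intro v hv
        rw [MulChar.mul_apply, hχ v hv, mul_one, h1 v hv]
      · intro χ _; simp
      · intro χ _; simp
      · intro χ _
        rw [← MulChar.mul_apply]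
        simp
    have h3 : (1 - χ₁ (u : ZMod q)) * ∑ χ ∈ ann H, χ (u : ZMod q) = 0 := by
      rw [sub_mul, one_mul, ← key, sub_self]
    rcases mul_eq_zero.1 h3 with h | h
    · exact absurd (sub_eq_zero.1 h).symm h2
    · exact h

theorem sum_coset (H : Subgroup (ZMod q)ˣ) (a : (ZMod q)ˣ) (p : ℕ) [Decidable (InCoset H a p)] :
    ∑ χ ∈ ann H, χ ((a⁻¹ : (ZMod q)ˣ) : ZMod q) * χ (p : ZMod q) =
      if InCoset H a p then (H.index : ℂ) else 0 := by
  classical
  by_cases hp : p.Coprime q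
  · have h1 : ∀ χ ∈ ann H, χ ((a⁻¹ : (ZMod q)ˣ) : ZMod q) * χ (p : ZMod q) =
        χ ((a⁻¹ * ZMod.unitOfCoprime p hp : (ZMod q)ˣ) : ZMod q) := by
      intro χ _
      rw [← map_mul, Units.val_mul, ZMod.coe_unitOfCoprime]
    rw [sum_congr rfl h1, sum_ann]
    have h2 : a⁻¹ * ZMod.unitOfCoprime p hp ∈ H ↔ InCoset H a p := by
      constructor
      · intro h
        refine ⟨_, h, ?_⟩
        rw [← Units.val_mul, mul_inv_cancel_left, ZMod.coe_unitOfCoprime]
      · rintro ⟨u, hu, h⟩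
        have h3 : ZMod.unitOfCoprime p hp = a * u := by
          ext
          rw [ZMod.coe_unitOfCoprime, h, Units.val_mul]
        rw [h3, inv_mul_cancel_left]
        exact hu
    simp only [h2]
  · rw [if_neg, sum_eq_zero]
    · intro χ _
      rw [apply_eq_zero χ hp, mul_zero]
    · rintro ⟨u, _, h⟩
      apply hp
      rw [← ZMod.isUnit_iff_coprime, h, ← Units.val_mul]
      exact Units.isUnit _

/-- the primitive character that induces `χ` -/
noncomputable def indCh (χ : DirichletCharacter ℂ q) : Ch := ⟨χ.conductor, χ.primitiveCharacter⟩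

omit [NeZero q] in
theorem ev_indCh (χ : DirichletCharacter ℂ q) {n : ℕ} (hn : n.Coprime q) :
    ev (indCh χ) n = χ (n : ZMod q) := by
  have h1 : IsCoprime (n : ℤ) (q : ℤ) := Nat.isCoprime_iff_coprime.mpr hn
  have := primitiveCharacter_apply_of_isCoprime χ h1
  unfold ev indCh
  simpa using this

theorem indCh_mem_Prim {χ : DirichletCharacter ℂ q} (hχ : χ ≠ 1) {Q : ℕ} (hqQ : q ≤ Q) :
    indCh χ ∈ Prim Q := by
  rw [mem_Prim]
  refine ⟨?_, ?_, primitiveCharacter_isPrimitive χ, ?_⟩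
  · exact conductor_ne_zero χ
  · exact (Nat.le_of_dvd (NeZero.pos q) χ.conductor_dvd_level).trans hqQ
  · intro h
    apply hχ
    have h1 := changeLevel_primitiveCharacter χ
    have h2 : χ.primitiveCharacter = 1 := h
    rw [h2, changeLevel_one] at h1
    exact h1.symm

/-- the number of the primes that divide `q` -/
theorem card_dvd_le (f : ℤ[X]) {Q : ℕ} (hqQ : q ≤ Q) (x : ℕ) :
    (((goodUpToQ f 1 x).filter (fun p => p ∣ q)).card : ℝ) ≤ 2 * Real.log Q := by
  classical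
  set S : Finset ℕ := (goodUpToQ f 1 x).filter (fun p => p ∣ q) with hS
  have hSp : ∀ p ∈ S, p.Prime ∧ p ∣ q := by
    intro p hp
    rw [hS, mem_filter] at hp
    unfold goodUpToQ at hp
    rw [mem_filter] at hp
    exact ⟨hp.1.2.1, hp.2⟩
  have hdvd : ∏ p ∈ S, p ∣ q :=
    Finset.prod_primes_dvd _ (fun p hp => (hSp p hp).1.prime) fun p hp => (hSp p hp).2
  have hle : ∏ p ∈ S, p ≤ q := Nat.le_of_dvd (NeZero.pos q) hdvd
  have h2 : 2 ^ S.card ≤ ∏ p ∈ S, p := by
    calc 2 ^ S.card = ∏ _p ∈ S, 2 := by rw [prod_const]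
      _ ≤ ∏ p ∈ S, p := Finset.prod_le_prod' fun p hp => (hSp p hp).1.two_le
  have h4 : (2 : ℝ) ^ S.card ≤ Q := by exact_mod_cast (h2.trans hle).trans hqQ
  have h5 : (S.card : ℝ) * Real.log 2 ≤ Real.log Q := by
    rw [← Real.log_pow]
    exact Real.log_le_log (by positivity) h4
  have h6 := Real.log_two_gt_d9
  have h7 : (0 : ℝ) ≤ S.card := Nat.cast_nonneg _
  nlinarith

omit [NeZero q] in
theorem coprime_of_good {f : ℤ[X]} {x p : ℕ} (hp : p ∈ goodUpToQ f 1 x) (h : ¬ p ∣ q) :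
    p.Coprime q := by
  classical
  unfold goodUpToQ at hp
  rw [mem_filter] at hp
  exact (Nat.Prime.coprime_iff_not_dvd hp.2.1).2 h

omit [NeZero q] in
/-- imprimitive characters -/
theorem imprim_sum (f : ℤ[X]) (x : ℕ) (g : ℕ → ℝ) (hg : ∀ p, |g p| ≤ 1)
    (χ : DirichletCharacter ℂ q) (ψ : ℕ → ℂ) (hψ : ∀ n, ‖ψ n‖ ≤ 1)
    (hχψ : ∀ n, n.Coprime q → ψ n = χ (n : ZMod q)) :
    ‖∑ p ∈ goodUpToQ f 1 x, (g p : ℂ) * χ (p : ZMod q) -
      ∑ p ∈ goodUpToQ f 1 x, (g p : ℂ) * ψ p‖ ≤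
      ((goodUpToQ f 1 x).filter (fun p => p ∣ q)).card := by
  classical
  rw [← sum_sub_distrib]
  have h1 : ∀ p ∈ goodUpToQ f 1 x, ‖(g p : ℂ) * χ (p : ZMod q) - (g p : ℂ) * ψ p‖ ≤
      if p ∣ q then (1 : ℝ) else 0 := by
    intro p hp
    split_ifs with h
    · have h2 : ¬ p.Coprime q := by
        intro h3
        unfold goodUpToQ at hp
        rw [mem_filter] at hp
        exact (Nat.Prime.coprime_iff_not_dvd hp.2.1).1 h3 h
      rw [apply_eq_zero χ h2, mul_zero, zero_sub, norm_neg, norm_mul, Complex.norm_real,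
        Real.norm_eq_abs]
      exact mul_le_one₀ (hg p) (norm_nonneg _) (hψ p)
    · rw [hχψ p (coprime_of_good hp h), sub_self, norm_zero]
  refine (norm_sum_le_of_le _ h1).trans (le_of_eq ?_)
  rw [← sum_filter, sum_const, nsmul_eq_mul, mul_one]

/-- the sum over a coset -/
theorem coset_sum (f : ℤ[X]) (x : ℕ) (g : ℕ → ℝ) (hg : ∀ p, |g p| ≤ 1) {Q : ℕ} (hqQ : q ≤ Q)
    {E : Finset Ch} {T W : ℝ} (hT : 0 ≤ T)
    (hs : ∀ y ∈ Prim Q, y ∉ E → ‖∑ p ∈ goodUpToQ f 1 x, (g p : ℂ) * ev y p‖ ≤ T)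
    (hW : 2 * Real.log Q ≤ W) (H : Subgroup (ZMod q)ˣ) (hY : ∀ χ ∈ ann H, χ ≠ 1 → indCh χ ∉ E)
    (a : (ZMod q)ˣ) [DecidablePred (InCoset H a)] :
    |H.index * ∑ p ∈ (goodUpToQ f 1 x).filter (InCoset H a), g p - ∑ p ∈ goodUpToQ f 1 x, g p| ≤
      H.index * (T + W) := by
  classical
  have hWc := (card_dvd_le f hqQ x).trans hW
  have hW0 : 0 ≤ W := (Nat.cast_nonneg _).trans hWc
  have h1 : ((H.index * ∑ p ∈ (goodUpToQ f 1 x).filter (InCoset H a), g p -
      ∑ p ∈ goodUpToQ f 1 x, g p : ℝ) : ℂ) =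
      (∑ χ ∈ (ann H).erase 1, χ ((a⁻¹ : (ZMod q)ˣ) : ZMod q) *
        ∑ p ∈ goodUpToQ f 1 x, (g p : ℂ) * χ (p : ZMod q)) +
      (∑ p ∈ goodUpToQ f 1 x, (g p : ℂ) * (1 : DirichletCharacter ℂ q) (p : ZMod q) -
        ∑ p ∈ goodUpToQ f 1 x, (g p : ℂ) * 1) := by
    have h2 : (((H.index : ℝ) * ∑ p ∈ (goodUpToQ f 1 x).filter (InCoset H a), g p : ℝ) : ℂ) =
        ∑ χ ∈ ann H, χ ((a⁻¹ : (ZMod q)ˣ) : ZMod q) *
          ∑ p ∈ goodUpToQ f 1 x, (g p : ℂ) * χ (p : ZMod q) := by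
      push_cast
      rw [sum_filter, mul_sum]
      have h3 : ∀ χ ∈ ann H, χ ((a⁻¹ : (ZMod q)ˣ) : ZMod q) *
          ∑ p ∈ goodUpToQ f 1 x, (g p : ℂ) * χ (p : ZMod q) =
          ∑ p ∈ goodUpToQ f 1 x, (g p : ℂ) * (χ ((a⁻¹ : (ZMod q)ˣ) : ZMod q) *
            χ (p : ZMod q)) := by
        intro χ _
        rw [mul_sum]
        exact sum_congr rfl fun p _ => by ring
      rw [sum_congr rfl h3, sum_comm]
      refine sum_congr rfl fun p _ => ?_
      rw [← mul_sum, sum_coset]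
      split_ifs
      · ring
      · ring
    have h4 : (1 : DirichletCharacter ℂ q) ∈ ann H := by
      rw [mem_ann]
      intro u _
      exact MulChar.one_apply_coe u
    rw [Complex.ofReal_sub, h2, ← add_sum_erase _ _ h4, MulChar.one_apply_coe, one_mul]
    push_cast
    simp only [mul_one]
    ring
  have hnorm : ‖((H.index * ∑ p ∈ (goodUpToQ f 1 x).filter (InCoset H a), g p -
      ∑ p ∈ goodUpToQ f 1 x, g p : ℝ) : ℂ)‖ ≤ H.index * (T + W) := by
    rw [h1]
    have h5 : ∀ χ ∈ (ann H).erase 1, ‖χ ((a⁻¹ : (ZMod q)ˣ) : ZMod q) *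
        ∑ p ∈ goodUpToQ f 1 x, (g p : ℂ) * χ (p : ZMod q)‖ ≤ T + W := by
      intro χ hχ
      rw [mem_erase] at hχ
      have h6 := imprim_sum f x g hg χ (ev (indCh χ)) (ev_norm_le _) fun n hn => ev_indCh χ hn
      have h7 := hs _ (indCh_mem_Prim hχ.1 hqQ) (hY χ hχ.2 hχ.1)
      have h8 : ‖∑ p ∈ goodUpToQ f 1 x, (g p : ℂ) * χ (p : ZMod q)‖ ≤ T + W := by
        calc ‖∑ p ∈ goodUpToQ f 1 x, (g p : ℂ) * χ (p : ZMod q)‖
            = ‖(∑ p ∈ goodUpToQ f 1 x, (g p : ℂ) * χ (p : ZMod q) -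
                ∑ p ∈ goodUpToQ f 1 x, (g p : ℂ) * ev (indCh χ) p) +
                ∑ p ∈ goodUpToQ f 1 x, (g p : ℂ) * ev (indCh χ) p‖ := by rw [sub_add_cancel]
          _ ≤ W + T := (norm_add_le _ _).trans (add_le_add (h6.trans hWc) h7)
          _ = T + W := add_comm _ _
      rw [norm_mul]
      calc ‖χ ((a⁻¹ : (ZMod q)ˣ) : ZMod q)‖ *
          ‖∑ p ∈ goodUpToQ f 1 x, (g p : ℂ) * χ (p : ZMod q)‖ ≤ 1 * (T + W) :=
            mul_le_mul (χ.norm_le_one _) h8 (norm_nonneg _) zero_le_one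
        _ = T + W := one_mul _
    have h9 := norm_sum_le_of_le _ h5
    rw [sum_const, nsmul_eq_mul] at h9
    have h10 := imprim_sum f x g hg (1 : DirichletCharacter ℂ q) (fun _ => 1)
      (fun _ => by rw [norm_one]) (fun n hn => by
        have : IsUnit (n : ZMod q) := (ZMod.isUnit_iff_coprime n q).2 hn
        rw [MulChar.one_apply this])
    have h4 : (1 : DirichletCharacter ℂ q) ∈ ann H := by
      rw [mem_ann]
      intro u _
      exact MulChar.one_apply_coe u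
    have h11 : (((ann H).erase 1).card : ℝ) + 1 = H.index := by
      rw [card_erase_of_mem h4, card_ann]
      have : 1 ≤ H.index := by
        rw [← card_ann]
        exact card_pos.2 ⟨1, h4⟩
      rw [Nat.cast_sub this]
      push_cast
      ring
    refine (norm_add_le _ _).trans ?_
    calc _ ≤ (((ann H).erase 1).card : ℝ) * (T + W) + W := add_le_add h9 (h10.trans hWc)
      _ ≤ (((ann H).erase 1).card : ℝ) * (T + W) + (T + W) := by linarith
      _ = _ := by rw [← h11]; ring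
  rwa [Complex.norm_real, Real.norm_eq_abs] at hnorm

/-- comparison of quotients -/
theorem ratio {S' N' S N ε : ℝ} (hN : 0 < N) (hN' : 0 ≤ N') (hS : |S| ≤ N) (hS' : |S'| ≤ N')
    (h1 : |S' - S| ≤ ε * N) (h2 : |N' - N| ≤ ε * N) : |S' / N' - S / N| ≤ 4 * ε := by
  have hε : 0 ≤ ε := by
    by_contra h
    push Not at h
    have : ε * N < 0 := mul_neg_of_neg_of_pos h hN
    have := abs_nonneg (N' - N)
    linarith
  have a2 : |S / N| ≤ 1 := by
    rw [abs_div, abs_of_pos hN]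
    exact div_le_one_of_le₀ hS hN.le
  by_cases hε2 : 1 / 2 ≤ ε
  · have a1 : |S' / N'| ≤ 1 := by
      rw [abs_div, abs_of_nonneg hN']
      exact div_le_one_of_le₀ hS' hN'
    have := abs_sub (S' / N') (S / N)
    linarith
  push Not at hε2
  have hN2 : N / 2 ≤ N' := by
    have := (abs_le.1 h2).1
    nlinarith
  have hN'0 : 0 < N' := by linarith
  have hdec : S' / N' - S / N = ((S' - S) - S / N * (N' - N)) / N' := by
    field_simp
    ring
  rw [hdec, abs_div, abs_of_pos hN'0, div_le_iff₀ hN'0]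
  calc |S' - S - S / N * (N' - N)| ≤ |S' - S| + |S / N * (N' - N)| := abs_sub _ _
    _ ≤ ε * N + 1 * (ε * N) := by
        rw [abs_mul]
        exact add_le_add h1 (mul_le_mul a2 h2 (abs_nonneg _) zero_le_one)
    _ = 4 * ε * (N / 2) := by ring
    _ ≤ 4 * ε * N' := mul_le_mul_of_nonneg_left hN2 (by positivity)

end Pool.Agent.Work.MP_6dc561_nt.AB
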