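import Pool.Agent.Work.MP_6dc561_nt.AB.All

/-!
# Primitive Dirichlet characters
-/

set_option autoImplicit false

open Finset DirichletCharacter

namespace Pool.Agent.Work.MP_6dc561_nt.AB

/-- Pairs (modulus, Dirichlet character). -/
abbrev Ch := Σ q : ℕ, DirichletCharacter ℂ q

/-- The value of the character at the natural number `n`. -/
noncomputable def ev (x : Ch) (n : ℕ) : ℂ := x.2 (n : ZMod x.1)

theorem ev_norm_le (x : Ch) (n : ℕ) : ‖ev x n‖ ≤ 1 := x.2.norm_le_one _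

theorem norm_sum_range_le {h : ℕ → ℂ} {m : ℕ} (hm : 0 < m) (hper : ∀ n, h (n + m) = h n)
    (hz : ∑ n ∈ range m, h n = 0) (hb : ∀ n, ‖h n‖ ≤ 1) (N : ℕ) :
    ‖∑ n ∈ range N, h n‖ ≤ m := by
  have key : ∀ q r : ℕ, ∑ n ∈ range (m * q + r), h n = ∑ n ∈ range r, h n := by
    intro q
    induction q with
    | zero => intro r; simp
    | succ q ih =>
      intro r
      have e1 : m * (q + 1) + r = m + (m * q + r) := by ring
      rw [e1, sum_range_add, hz, zero_add, ← ih r]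
      refine sum_congr rfl fun n _ => ?_
      rw [add_comm m n, hper]
  have h1 : N = m * (N / m) + N % m := (Nat.div_add_mod N m).symm
  rw [h1, key]
  calc ‖∑ n ∈ range (N % m), h n‖ ≤ ∑ n ∈ range (N % m), (1 : ℝ) :=
        norm_sum_le_of_le _ fun n _ => hb n
    _ = ((N % m : ℕ) : ℝ) := by simp
    _ ≤ m := by exact_mod_cast (Nat.mod_lt N hm).le

theorem sum_range_eq_univ {m : ℕ} [NeZero m] (H : ZMod m → ℂ) :
    ∑ n ∈ range m, H (n : ZMod m) = ∑ z : ZMod m, H z := by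
  have hm : 0 < m := NeZero.pos m
  rw [Finset.sum_range]
  refine Fintype.sum_equiv (ZMod.finEquiv m).toEquiv _ _ fun i => ?_
  have : ((ZMod.finEquiv m).toEquiv i : ZMod m) = ((i : ℕ) : ZMod m) := by
    have h2 : ((ZMod.finEquiv m).toEquiv i : ZMod m) = (ZMod.finEquiv m) i := rfl
    rw [h2]
    apply ZMod.val_injective m
    rw [ZMod.val_natCast, Nat.mod_eq_of_lt i.2]
    obtain ⟨k, rfl⟩ : ∃ k, m = k + 1 := ⟨m - 1, by omega⟩
    rfl
  rw [this]

theorem sum_char_le {L : ℕ} [NeZero L] (θ : DirichletCharacter ℂ L) (hθ : θ ≠ 1) (N : ℕ) :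
    ‖∑ n ∈ range N, θ (n : ZMod L)‖ ≤ L := by
  apply norm_sum_range_le (NeZero.pos L)
  · intro n
    push_cast
    rw [ZMod.natCast_self, add_zero]
  · rw [sum_range_eq_univ]
    exact MulChar.sum_eq_zero_of_ne_one hθ
  · intro n
    exact θ.norm_le_one _

theorem changeLevel_apply' {f q : ℕ} (h : f ∣ q) (ψ : DirichletCharacter ℂ f) (n : ℕ)
    (hn : n.Coprime q) : changeLevel h ψ (n : ZMod q) = ψ (n : ZMod f) := by
  have h1 : IsCoprime (n : ℤ) (q : ℤ) := Nat.isCoprime_iff_coprime.mpr hn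
  have := changeLevel_eq_cast_of_dvd' ψ h h1
  simpa using this

theorem apply_eq_zero {q : ℕ} (χ : DirichletCharacter ℂ q) {n : ℕ} (hn : ¬ n.Coprime q) :
    χ (n : ZMod q) = 0 := by
  apply MulChar.map_nonunit
  rwa [ZMod.isUnit_iff_coprime]

theorem prim_eq {x y : Ch} (hx0 : x.1 ≠ 0) (hy0 : y.1 ≠ 0) (hx : x.2.IsPrimitive)
    (hy : y.2.IsPrimitive) (h : changeLevel (dvd_mul_right x.1 y.1) x.2 =
      changeLevel (dvd_mul_left y.1 x.1) y.2) : x = y := by
  have : NeZero (x.1 * y.1) := ⟨Nat.mul_ne_zero hx0 hy0⟩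
  have h1 := conductor_changeLevel (χ := x.2) (dvd_mul_right x.1 y.1)
  have h2 := conductor_changeLevel (χ := y.2) (dvd_mul_left y.1 x.1)
  rw [h, h2] at h1
  have h3 : x.1 = y.1 := by
    have a := (isPrimitive_def _).1 hx
    have b := (isPrimitive_def _).1 hy
    rw [a, b] at h1
    exact h1.symm
  obtain ⟨q, χ⟩ := x
  obtain ⟨q', χ'⟩ := y
  simp only at h3
  subst h3
  have : NeZero (q * q) := ⟨Nat.mul_ne_zero hx0 hy0⟩
  have h4 : χ = χ' := changeLevel_injective (R := ℂ) (dvd_mul_right q q) h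
  rw [h4]

theorem off_bound {x y : Ch} (hx0 : x.1 ≠ 0) (hy0 : y.1 ≠ 0) (hx : x.2.IsPrimitive)
    (hy : y.2.IsPrimitive) (hxy : x ≠ y) (N : ℕ) :
    ‖∑ n ∈ range N, ev x n * (starRingEnd ℂ) (ev y n)‖ ≤ (x.1 : ℝ) * y.1 := by
  have : NeZero (x.1 * y.1) := ⟨Nat.mul_ne_zero hx0 hy0⟩
  set θ : DirichletCharacter ℂ (x.1 * y.1) := changeLevel (dvd_mul_right x.1 y.1) x.2 *
    (changeLevel (dvd_mul_left y.1 x.1) y.2)⁻¹ with hθ
  have hne : θ ≠ 1 := by
    intro h
    apply hxy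
    apply prim_eq hx0 hy0 hx hy
    rwa [hθ, mul_inv_eq_one] at h
  have key : ∀ n : ℕ, ev x n * (starRingEnd ℂ) (ev y n) = θ (n : ZMod (x.1 * y.1)) := by
    intro n
    by_cases hn : n.Coprime (x.1 * y.1)
    · rw [hθ, MulChar.mul_apply, ← MulChar.star_apply', changeLevel_apply' _ _ _ hn,
        changeLevel_apply' _ _ _ hn]
      rfl
    · rw [apply_eq_zero θ hn]
      rw [Nat.coprime_mul_iff_right, not_and_or] at hn
      unfold ev
      rcases hn with h | h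
      · rw [apply_eq_zero x.2 h, zero_mul]
      · rw [apply_eq_zero y.2 h, map_zero, mul_zero]
  rw [sum_congr rfl fun n _ => key n]
  have := sum_char_le θ hne N
  push_cast at this
  exact this

open scoped Classical in
/-- The nonprincipal primitive characters of modulus at most `Q`. -/
noncomputable def Prim (Q : ℕ) : Finset Ch :=
  (Ioc 0 Q).sigma fun r => univ.filter fun χ => χ.IsPrimitive ∧ χ ≠ 1

theorem mem_Prim {Q : ℕ} {x : Ch} :
    x ∈ Prim Q ↔ x.1 ≠ 0 ∧ x.1 ≤ Q ∧ x.2.IsPrimitive ∧ x.2 ≠ 1 := by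
  classical
  unfold Prim
  rw [mem_sigma, mem_Ioc, mem_filter, Nat.pos_iff_ne_zero]
  constructor
  · rintro ⟨⟨h1, h2⟩, _, h3, h4⟩
    exact ⟨h1, h2, h3, h4⟩
  · rintro ⟨h1, h2, h3, h4⟩
    exact ⟨⟨h1, h2⟩, mem_univ _, h3, h4⟩

theorem Prim_mono {Q Q' : ℕ} (h : Q ≤ Q') : Prim Q ⊆ Prim Q' := by
  intro x hx
  rw [mem_Prim] at hx ⊢
  exact ⟨hx.1, hx.2.1.trans h, hx.2.2⟩

theorem chFam_Prim (Q : ℕ) : ChFam (Prim Q) ev Q where
  mul i a b := by
    unfold ev
    push_cast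
    exact map_mul _ _ _
  one i := by
    unfold ev
    push_cast
    exact map_one _
  norm_le := ev_norm_le
  off i hi j hj hij N := by
    rw [mem_Prim] at hi hj
    refine (off_bound hi.1 hj.1 hi.2.2.1 hj.2.2.1 hij N).trans ?_
    have h1 : (i.1 : ℝ) ≤ Q := by exact_mod_cast hi.2.1
    have h2 : (j.1 : ℝ) ≤ Q := by exact_mod_cast hj.2.1
    have h3 : (0 : ℝ) ≤ i.1 := Nat.cast_nonneg _
    have h4 : (0 : ℝ) ≤ j.1 := Nat.cast_nonneg _
    nlinarith

end Pool.Agent.Work.MP_6dc561_nt.AB
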