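import Pool.Agent.Work.MP_6dc561_nt.AB.Field

/-!
# Sums over the primes of an abelian field
-/

set_option autoImplicit false

open NumberField IsDedekindDomain Ideal Polynomial Finset

namespace Pool.Agent.Work.MP_6dc561_nt.AB

open Pool.Agent.Work.MP_6dc561_nt.BC
open Pool.Agent.Work.MP_6dc561_nt.AA (goodQ goodUpToQ aQ bQ avgQ gpr)

variable {q : ℕ} [NeZero q] {K : Type} [Field K] [NumberField K] {L : Type} [Field L]
  [NumberField L] [Algebra K L] [IsCyclotomicExtension {q} ℚ L]

omit [NeZero q] in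
theorem inC_one_iff (H : Subgroup (ZMod q)ˣ) {p : ℕ} (hpq : p.Coprime q) :
    InCoset H 1 p ↔ ZMod.unitOfCoprime p hpq ∈ H := by
  constructor
  · rintro ⟨u, hu, h⟩
    have h3 : ZMod.unitOfCoprime p hpq = u := by
      ext
      rw [ZMod.coe_unitOfCoprime, h, Units.val_one, one_mul]
    rw [h3]
    exact hu
  · intro h
    refine ⟨_, h, ?_⟩
    rw [Units.val_one, one_mul, ZMod.coe_unitOfCoprime]

omit [NeZero q] in
theorem not_inC_of_dvd (H : Subgroup (ZMod q)ˣ) (a : (ZMod q)ˣ) {p : ℕ} (hp : p.Prime)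
    (h : p ∣ q) : ¬ InCoset H a p := by
  rintro ⟨u, _, hu⟩
  have h1 : IsUnit (p : ZMod q) := by
    rw [hu, ← Units.val_mul]
    exact Units.isUnit _
  rw [ZMod.isUnit_iff_coprime] at h1
  exact (Nat.Prime.coprime_iff_not_dvd hp).1 h1 h

variable (q L) in
/-- the contribution of one rational prime -/
theorem fiber_bound (f : ℤ[X]) (x : ℕ) (A : Finset (HeightOneSpectrum (𝓞 K)))
    (hA : ∀ w, w ∈ A ↔ w ∈ goodUpTo (f.map (Int.castRingHom (𝓞 K))) 1 x)
    (H : HeightOneSpectrum (𝓞 K) → ℝ) (g : ℕ → ℝ)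
    (hH : ∀ w, |H w| ≤ 1)
    (hHg : ∀ w : HeightOneSpectrum (𝓞 K), absNorm w.asIdeal = ch w → H w = g (ch w))
    {p : ℕ} (hp : p ∈ goodUpToQ f 1 x) [DecidablePred fun w : HeightOneSpectrum (𝓞 K) => ch w = p]
    [Decidable (InCoset (subK q K L) 1 p)] :
    |∑ w ∈ A with ch w = p, H w -
      Module.finrank ℚ K * (if InCoset (subK q K L) 1 p then g p else 0)| ≤
      Module.finrank ℚ K * (if p ^ 2 ≤ x then 1 else 0) +
        Module.finrank ℚ K * (if p ∣ q then 1 else 0) := by
  classical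
  set n : ℕ := Module.finrank ℚ K with hn
  have hp' := hp
  unfold AA.goodUpToQ at hp'
  rw [mem_filter, Finset.mem_Icc] at hp'
  obtain ⟨⟨_, hpx⟩, hgood⟩ := hp'
  have hpp : p.Prime := hgood.1
  have hfin := primesOver_finite (K := K) (p := p)
  let _ : Fintype ((PZ p).primesOver (𝓞 K)) := Fintype.ofFinite _
  have hsub : A.filter (fun w => ch w = p) ⊆ Finset.univ.image (toH (K := K) hpp) := by
    intro w hw
    rw [mem_filter] at hw
    obtain ⟨P, hP⟩ := exists_toH hpp hw.2
    rw [mem_image]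
    exact ⟨P, mem_univ _, hP⟩
  have hcard : (A.filter (fun w => ch w = p)).card ≤ n := by
    refine (card_le_card hsub).trans (card_image_le.trans ?_)
    rw [card_univ]
    exact card_primesOver_le hpp
  have hsum : |∑ w ∈ A with ch w = p, H w| ≤ n := by
    calc |∑ w ∈ A with ch w = p, H w| ≤ ∑ w ∈ A with ch w = p, |H w| := abs_sum_le_sum_abs _ _
      _ ≤ ∑ w ∈ A with ch w = p, 1 := sum_le_sum fun w _ => hH w
      _ = (A.filter (fun w => ch w = p)).card := by rw [sum_const, nsmul_eq_mul, mul_one]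
      _ ≤ n := by exact_mod_cast hcard
  by_cases hdvd : p ∣ q
  · rw [if_neg (not_inC_of_dvd _ _ hpp hdvd), mul_zero, sub_zero, if_pos hdvd, mul_one]
    have : (0 : ℝ) ≤ n * (if p ^ 2 ≤ x then 1 else 0) := by positivity
    linarith
  have hpq : p.Coprime q := (Nat.Prime.coprime_iff_not_dvd hpp).2 hdvd
  rw [if_neg hdvd, mul_zero, add_zero]
  by_cases hin : InCoset (subK q K L) 1 p
  · rw [if_pos hin]
    have hu := (inC_one_iff _ hpq).1 hin
    have hnorm : ∀ P : (PZ p).primesOver (𝓞 K), absNorm (toH hpp P).asIdeal = p :=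
      fun P => absNorm_of_mem hpp hpq hu P
    have himg : A.filter (fun w => ch w = p) = Finset.univ.image (toH (K := K) hpp) := by
      apply Finset.Subset.antisymm hsub
      intro w hw
      rw [mem_image] at hw
      obtain ⟨P, _, rfl⟩ := hw
      rw [mem_filter, hA]
      refine ⟨⟨?_, ?_⟩, ch_toH hpp P⟩
      · rw [good_iff_ch, ch_toH]; exact hgood
      · unfold nrm
        rw [hnorm P]
        exact_mod_cast hpx
    rw [himg, sum_image (fun a _ b _ hab => toH_injective hpp hab)]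
    have hterm : ∀ P : (PZ p).primesOver (𝓞 K), H (toH hpp P) = g p := by
      intro P
      have := hHg (toH hpp P) (by rw [hnorm P, ch_toH])
      rwa [ch_toH] at this
    have hc := card_primesOver_eq (K := K) (L := L) hpp hpq hu
    rw [sum_congr rfl (fun P _ => hterm P), sum_const, card_univ, hc, nsmul_eq_mul, sub_self,
      abs_zero]
    positivity
  · rw [if_neg hin, mul_zero, sub_zero]
    by_cases hx : p ^ 2 ≤ x
    · rw [if_pos hx, mul_one]; exact hsum
    · rw [if_neg hx, mul_zero]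
      have hempty : A.filter (fun w => ch w = p) = ∅ := by
        rw [filter_eq_empty_iff]
        intro w hw hwp
        rw [hA] at hw
        have h4 : (nrm w : ℝ) ≤ x := hw.2
        have h5 : nrm w ≤ x := by exact_mod_cast h4
        obtain ⟨P, hP⟩ := exists_toH hpp hwp
        have h6 := absNorm_over hpp P
        have h7 : 2 ≤ P.1.inertiaDeg ℤ := by
          have h10 := one_le_f P
          by_contra hlt
          have h11 : P.1.inertiaDeg ℤ = 1 := by omega
          rw [h11, pow_one] at h6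
          exact hin ((inC_one_iff _ hpq).2 (mem_of_absNorm hpp hpq P h6))
        have h8 : p ^ 2 ≤ absNorm P.1 := by
          rw [h6]; exact Nat.pow_le_pow_right hpp.pos h7
        have h9 : nrm w = absNorm P.1 := by
          rw [← hP]; rfl
        omega
      rw [hempty, sum_empty, abs_zero]

variable (q L) in
/-- sums over the primes of the abelian field -/
theorem sum_bound (f : ℤ[X]) (x : ℕ) (A : Finset (HeightOneSpectrum (𝓞 K)))
    (hA : ∀ w, w ∈ A ↔ w ∈ goodUpTo (f.map (Int.castRingHom (𝓞 K))) 1 x)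
    (H : HeightOneSpectrum (𝓞 K) → ℝ) (g : ℕ → ℝ) (hH : ∀ w, |H w| ≤ 1)
    (hHg : ∀ w : HeightOneSpectrum (𝓞 K), absNorm w.asIdeal = ch w → H w = g (ch w))
    [DecidablePred (InCoset (subK q K L) 1)] {Q : ℕ} (hqQ : q ≤ Q) :
    |∑ w ∈ A, H w - Module.finrank ℚ K *
      ∑ p ∈ (goodUpToQ f 1 x).filter (InCoset (subK q K L) 1), g p| ≤
      Module.finrank ℚ K * (Real.sqrt x + 2 * Real.log Q) := by
  classical
  set n : ℕ := Module.finrank ℚ K with hn
  have hmaps : ∀ w ∈ A, ch w ∈ goodUpToQ f 1 x := by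
    intro w hw
    rw [hA] at hw
    have h1 := (good_iff_ch f w).1 hw.1
    have h4 : (nrm w : ℝ) ≤ x := hw.2
    have h5 : nrm w ≤ x := by exact_mod_cast h4
    unfold AA.goodUpToQ
    rw [mem_filter, Finset.mem_Icc]
    exact ⟨⟨h1.1.one_lt.le, (ch_le_nrm w).trans h5⟩, h1⟩
  rw [← sum_fiberwise_of_maps_to hmaps, sum_filter, mul_sum, ← sum_sub_distrib]
  calc _ ≤ ∑ p ∈ goodUpToQ f 1 x, |∑ w ∈ A with ch w = p, H w -
          (n : ℝ) * (if InCoset (subK q K L) 1 p then g p else 0)| := abs_sum_le_sum_abs _ _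
    _ ≤ ∑ p ∈ goodUpToQ f 1 x, ((n : ℝ) * (if p ^ 2 ≤ x then (1 : ℝ) else 0) +
          n * (if p ∣ q then (1 : ℝ) else 0)) :=
        sum_le_sum fun p hp => fiber_bound q L f x A hA H g hH hHg hp
    _ = n * (∑ p ∈ goodUpToQ f 1 x, (if p ^ 2 ≤ x then (1 : ℝ) else 0) +
          ∑ p ∈ goodUpToQ f 1 x, (if p ∣ q then (1 : ℝ) else 0)) := by
        rw [sum_add_distrib, ← mul_sum, ← mul_sum, mul_add]
    _ ≤ _ := by
        apply mul_le_mul_of_nonneg_left _ (Nat.cast_nonneg _)
        apply add_le_add (card_sq_le f x)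
        rw [← sum_filter, sum_const, nsmul_eq_mul, mul_one]
        exact card_dvd_le f hqQ x

end Pool.Agent.Work.MP_6dc561_nt.AB
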