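import Pool.Agent.Work.MP_6dc561_nt.PS.Scales

/-!
# High moments for families of completely multiplicative functions
-/

set_option autoImplicit false

open Finset

namespace Pool.Agent.Work.MP_6dc561_nt.AB

open Pool.Agent.Work.MP_6dc561_nt.AA

variable {ι : Type*}

/-- A family of completely multiplicative functions with small correlations. -/
structure ChFam (s : Finset ι) (ψ : ι → ℕ → ℂ) (D : ℝ) : Prop where
  mul : ∀ i a b, ψ i (a * b) = ψ i a * ψ i b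
  one : ∀ i, ψ i 1 = 1
  norm_le : ∀ i n, ‖ψ i n‖ ≤ 1
  off : ∀ i ∈ s, ∀ j ∈ s, i ≠ j → ∀ N : ℕ,
    ‖∑ n ∈ range N, ψ i n * (starRingEnd ℂ) (ψ j n)‖ ≤ 4 * D ^ 2

theorem ChFam.mono {s t : Finset ι} {ψ : ι → ℕ → ℂ} {D : ℝ} (h : ChFam s ψ D) (hts : t ⊆ s) :
    ChFam t ψ D :=
  ⟨h.mul, h.one, h.norm_le, fun i hi j hj => h.off i (hts hi) j (hts hj)⟩

/-- large sieve -/
theorem large_sieve' {s : Finset ι} {ψ : ι → ℕ → ℂ} {D : ℝ} (h : ChFam s ψ D) (N : ℕ)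
    (a : ℕ → ℝ) :
    ∑ i ∈ s, ‖∑ n ∈ range N, (a n : ℂ) * ψ i n‖ ^ 2 ≤
      (N + 4 * D ^ 2 * s.card) * ∑ n ∈ range N, a n ^ 2 := by
  classical
  set c : ι → ℂ := fun i => (starRingEnd ℂ) (∑ n ∈ range N, (a n : ℂ) * ψ i n) with hc
  set L : ℝ := ∑ i ∈ s, ‖∑ n ∈ range N, (a n : ℂ) * ψ i n‖ ^ 2 with hL
  have hcL : ∑ i ∈ s, ‖c i‖ ^ 2 = L := by
    rw [hL]
    refine sum_congr rfl fun i _ => ?_
    rw [hc]
    simp only [RCLike.norm_conj]
  have hL0 : 0 ≤ L := sum_nonneg fun i _ => sq_nonneg _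
  have h1 : (L : ℂ) = ∑ n ∈ range N, (a n : ℂ) * ∑ i ∈ s, c i * ψ i n := by
    have e1 : (L : ℂ) = ∑ i ∈ s, c i * ∑ n ∈ range N, (a n : ℂ) * ψ i n := by
      rw [hL]
      push_cast
      refine sum_congr rfl fun i _ => ?_
      rw [← Complex.conj_mul']
    rw [e1]
    simp_rw [mul_sum]
    rw [sum_comm]
    exact sum_congr rfl fun n _ => sum_congr rfl fun i _ => by ring
  clear_value c
  have h2 : ∑ n ∈ range N, ‖∑ i ∈ s, c i * ψ i n‖ ^ 2 ≤ (N + 4 * D ^ 2 * s.card) * L := by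
    have e1 : ((∑ n ∈ range N, ‖∑ i ∈ s, c i * ψ i n‖ ^ 2 : ℝ) : ℂ) =
        ∑ i ∈ s, ∑ j ∈ s, c i * (starRingEnd ℂ) (c j) *
          ∑ n ∈ range N, ψ i n * (starRingEnd ℂ) (ψ j n) := by
      push_cast
      have e2 : ∀ n ∈ range N, ((‖∑ i ∈ s, c i * ψ i n‖ : ℝ) : ℂ) ^ 2 =
          ∑ i ∈ s, ∑ j ∈ s, (c i * ψ i n) * (starRingEnd ℂ) (c j * ψ j n) := by
        intro n _
        rw [← Complex.mul_conj', map_sum, sum_mul_sum]
      rw [sum_congr rfl e2, sum_comm]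
      refine sum_congr rfl fun i _ => ?_
      rw [sum_comm]
      refine sum_congr rfl fun j _ => ?_
      rw [mul_sum]
      refine sum_congr rfl fun n _ => ?_
      rw [map_mul]
      ring
    have e3 : ∑ n ∈ range N, ‖∑ i ∈ s, c i * ψ i n‖ ^ 2 =
        ‖((∑ n ∈ range N, ‖∑ i ∈ s, c i * ψ i n‖ ^ 2 : ℝ) : ℂ)‖ := by
      rw [Complex.norm_real, Real.norm_eq_abs, abs_of_nonneg (by positivity)]
    rw [e3, e1]
    have e4 : ∀ i ∈ s, ∀ j ∈ s, ‖c i * (starRingEnd ℂ) (c j) *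
        ∑ n ∈ range N, ψ i n * (starRingEnd ℂ) (ψ j n)‖ ≤
        (if i = j then (N : ℝ) * ‖c i‖ ^ 2 else 0) + 4 * D ^ 2 * (‖c i‖ * ‖c j‖) := by
      intro i hi j hj
      rw [norm_mul, norm_mul, RCLike.norm_conj]
      by_cases hij : i = j
      · subst hij
        rw [if_pos rfl]
        have e5 : ‖∑ n ∈ range N, ψ i n * (starRingEnd ℂ) (ψ i n)‖ ≤ N := by
          calc ‖∑ n ∈ range N, ψ i n * (starRingEnd ℂ) (ψ i n)‖
              ≤ ∑ n ∈ range N, (1 : ℝ) := norm_sum_le_of_le _ fun n _ => by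
                rw [norm_mul, RCLike.norm_conj]
                have := h.norm_le i n
                have h0 := norm_nonneg (ψ i n)
                nlinarith
            _ = N := by simp
        have e6 : ‖c i‖ * ‖c i‖ * ‖∑ n ∈ range N, ψ i n * (starRingEnd ℂ) (ψ i n)‖ ≤
            ‖c i‖ * ‖c i‖ * N := mul_le_mul_of_nonneg_left e5 (by positivity)
        have e7 : 0 ≤ 4 * D ^ 2 * (‖c i‖ * ‖c i‖) := by positivity
        nlinarith
      · rw [if_neg hij, zero_add]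
        calc ‖c i‖ * ‖c j‖ * ‖∑ n ∈ range N, ψ i n * (starRingEnd ℂ) (ψ j n)‖
            ≤ ‖c i‖ * ‖c j‖ * (4 * D ^ 2) :=
              mul_le_mul_of_nonneg_left (h.off i hi j hj hij N) (by positivity)
          _ = _ := by ring
    calc ‖∑ i ∈ s, ∑ j ∈ s, c i * (starRingEnd ℂ) (c j) *
          ∑ n ∈ range N, ψ i n * (starRingEnd ℂ) (ψ j n)‖
        ≤ ∑ i ∈ s, ∑ j ∈ s, ((if i = j then (N : ℝ) * ‖c i‖ ^ 2 else 0) +
            4 * D ^ 2 * (‖c i‖ * ‖c j‖)) :=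
          norm_sum_le_of_le _ fun i hi => norm_sum_le_of_le _ fun j hj => e4 i hi j hj
      _ = N * ∑ i ∈ s, ‖c i‖ ^ 2 + 4 * D ^ 2 * (∑ i ∈ s, ‖c i‖) ^ 2 := by
          simp_rw [sum_add_distrib]
          congr 1
          · rw [mul_sum]
            refine sum_congr rfl fun i hi => ?_
            rw [sum_ite_eq, if_pos hi]
          · rw [sq (∑ i ∈ s, ‖c i‖), sum_mul_sum, mul_sum]
            refine sum_congr rfl fun i _ => ?_
            rw [mul_sum]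
      _ ≤ N * ∑ i ∈ s, ‖c i‖ ^ 2 + 4 * D ^ 2 * (s.card * ∑ i ∈ s, ‖c i‖ ^ 2) := by
          gcongr
          exact sq_sum_le_card_mul_sum_sq
      _ = (N + 4 * D ^ 2 * s.card) * L := by rw [hcL]; ring
  set B : ℝ := ∑ n ∈ range N, a n ^ 2 with hB
  have hB0 : 0 ≤ B := sum_nonneg fun n _ => sq_nonneg _
  have h3 : L ^ 2 ≤ B * ((N + 4 * D ^ 2 * s.card) * L) := by
    have e1 : L ≤ ∑ n ∈ range N, |a n| * ‖∑ i ∈ s, c i * ψ i n‖ := by
      have e2 : L = ‖(L : ℂ)‖ := by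
        rw [Complex.norm_real, Real.norm_eq_abs, abs_of_nonneg hL0]
      rw [e2, h1]
      refine norm_sum_le_of_le _ fun n _ => ?_
      rw [norm_mul, Complex.norm_real, Real.norm_eq_abs]
    calc L ^ 2 ≤ (∑ n ∈ range N, |a n| * ‖∑ i ∈ s, c i * ψ i n‖) ^ 2 :=
          pow_le_pow_left₀ hL0 e1 2
      _ ≤ (∑ n ∈ range N, |a n| ^ 2) * ∑ n ∈ range N, ‖∑ i ∈ s, c i * ψ i n‖ ^ 2 :=
          sum_mul_sq_le_sq_mul_sq _ _ _
      _ = B * ∑ n ∈ range N, ‖∑ i ∈ s, c i * ψ i n‖ ^ 2 := by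
          rw [hB]; simp only [sq_abs]
      _ ≤ _ := mul_le_mul_of_nonneg_left h2 hB0
  rcases hL0.eq_or_lt with h | h
  · rw [← h]
    positivity
  · have h4 : L * L ≤ ((N + 4 * D ^ 2 * s.card) * B) * L := by nlinarith
    exact le_of_mul_le_mul_right h4 h

theorem psi_prod {s : Finset ι} {ψ : ι → ℕ → ℂ} {D : ℝ} (h : ChFam s ψ D) (i : ι) {k : ℕ}
    (v : Fin k → ℕ) : ψ i (∏ j, v j) = ∏ j, ψ i (v j) := by
  induction k with
  | zero => simp [h.one]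
  | succ k ih => rw [Fin.prod_univ_succ, Fin.prod_univ_succ, h.mul, ih]

/-- the `2k`-th moment of a sum over primes -/
theorem moment' {s : Finset ι} {ψ : ι → ℕ → ℂ} {D : ℝ} (h : ChFam s ψ D) {P : Finset ℕ}
    (hP : ∀ p ∈ P, p.Prime) {q : ℕ} (hq : ∀ p ∈ P, p ≤ q) {g : ℕ → ℝ} {M : ℝ}
    (hg : ∀ p ∈ P, |g p| ≤ M) (k : ℕ) :
    ∑ i ∈ s, (‖∑ p ∈ P, (g p : ℂ) * ψ i p‖ ^ k) ^ 2 ≤
      ((q : ℝ) ^ k + 1 + 4 * D ^ 2 * s.card) * (M ^ (2 * k) * (k : ℝ) ^ k * (P.card : ℝ) ^ k) := by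
  classical
  set V : Finset (Fin k → ℕ) := Fintype.piFinset fun _ : Fin k => P with hV
  set N : ℕ := q ^ k + 1 with hN
  set a : ℕ → ℝ := fun n => ∑ v ∈ V.filter fun v => ∏ i, v i = n, ∏ i, g (v i) with ha
  have hmaps : ∀ v ∈ V, ∏ i, v i ∈ Finset.range N := by
    intro v hv
    rw [hV, Fintype.mem_piFinset] at hv
    rw [Finset.mem_range, hN, Nat.lt_succ_iff]
    calc ∏ i, v i ≤ ∏ _i : Fin k, q := Finset.prod_le_prod' fun i _ => hq _ (hv i)
      _ = q ^ k := by simp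
  have hpow : ∀ i, (∑ p ∈ P, (g p : ℂ) * ψ i p) ^ k =
      ∑ n ∈ Finset.range N, (a n : ℂ) * ψ i n := by
    intro i
    have e1 : (∑ p ∈ P, (g p : ℂ) * ψ i p) ^ k = ∑ v ∈ V, ∏ j, ((g (v j) : ℂ) * ψ i (v j)) := by
      have := Finset.prod_univ_sum (fun _ : Fin k => P) (fun _ p => (g p : ℂ) * ψ i p)
      rw [Finset.prod_const, Finset.card_univ, Fintype.card_fin] at this
      exact this
    rw [e1, ← Finset.sum_fiberwise_of_maps_to hmaps]
    refine Finset.sum_congr rfl fun n _ => ?_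
    simp only [ha]
    push_cast
    rw [Finset.sum_mul]
    refine Finset.sum_congr rfl fun v hv => ?_
    rw [Finset.mem_filter] at hv
    rw [Finset.prod_mul_distrib, ← psi_prod h, hv.2]
  have habs : ∀ n, |a n| ≤ ((V.filter fun v => ∏ i, v i = n).card : ℝ) * M ^ k := by
    intro n
    calc |a n| ≤ ∑ v ∈ V.filter fun v => ∏ i, v i = n, |∏ i, g (v i)| :=
          Finset.abs_sum_le_sum_abs _ _
      _ ≤ ∑ _v ∈ V.filter fun v => ∏ i, v i = n, M ^ k := by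
          refine Finset.sum_le_sum fun v hv => ?_
          rw [Finset.mem_filter, hV, Fintype.mem_piFinset] at hv
          rw [Finset.abs_prod]
          calc ∏ i, |g (v i)| ≤ ∏ _i : Fin k, M :=
                Finset.prod_le_prod (fun i _ => abs_nonneg _) fun i _ => hg _ (hv.1 i)
            _ = M ^ k := by simp
      _ = _ := by rw [Finset.sum_const, nsmul_eq_mul]
  have hsum : ∑ n ∈ Finset.range N, a n ^ 2 ≤
      M ^ (2 * k) * (k : ℝ) ^ k * (P.card : ℝ) ^ k := by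
    have h1 : ∀ n ∈ Finset.range N, a n ^ 2 ≤
        M ^ (2 * k) * (k : ℝ) ^ k * ((V.filter fun v => ∏ i, v i = n).card : ℝ) := by
      intro n _
      set r : ℝ := ((V.filter fun v => ∏ i, v i = n).card : ℝ) with hr
      have hr0 : 0 ≤ r := Nat.cast_nonneg _
      have hrk : r ≤ (k : ℝ) ^ k := by
        rw [hr]; exact_mod_cast card_tuples_le P hP k n
      have hM2 : 0 ≤ M ^ (2 * k) := by rw [mul_comm, pow_mul]; exact sq_nonneg _
      calc a n ^ 2 = |a n| ^ 2 := (sq_abs _).symm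
        _ ≤ (r * M ^ k) ^ 2 := pow_le_pow_left₀ (abs_nonneg _) (habs n) 2
        _ = M ^ (2 * k) * (r * r) := by ring
        _ ≤ M ^ (2 * k) * ((k : ℝ) ^ k * r) :=
            mul_le_mul_of_nonneg_left (mul_le_mul_of_nonneg_right hrk hr0) hM2
        _ = _ := by ring
    calc ∑ n ∈ Finset.range N, a n ^ 2
        ≤ ∑ n ∈ Finset.range N, M ^ (2 * k) * (k : ℝ) ^ k *
            ((V.filter fun v => ∏ i, v i = n).card : ℝ) := Finset.sum_le_sum h1
      _ = M ^ (2 * k) * (k : ℝ) ^ k * (V.card : ℝ) := by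
          rw [← Finset.mul_sum, Finset.card_eq_sum_card_fiberwise hmaps]
          push_cast; rfl
      _ = _ := by rw [hV]; simp
  calc ∑ i ∈ s, (‖∑ p ∈ P, (g p : ℂ) * ψ i p‖ ^ k) ^ 2
      = ∑ i ∈ s, ‖∑ n ∈ Finset.range N, (a n : ℂ) * ψ i n‖ ^ 2 :=
        Finset.sum_congr rfl fun i _ => by rw [← norm_pow, hpow]
    _ ≤ (N + 4 * D ^ 2 * s.card) * ∑ n ∈ Finset.range N, a n ^ 2 := large_sieve' h N a
    _ ≤ _ := by
        have : ((N : ℕ) : ℝ) = (q : ℝ) ^ k + 1 := by rw [hN]; push_cast; ring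
        rw [this]
        exact mul_le_mul_of_nonneg_left hsum (by positivity)

/-- the twisted sum over the first `n` primes -/
noncomputable def TC (ψ : ι → ℕ → ℂ) (pr : ℕ → ℕ) (g : ℕ → ℝ) (n : ℕ) (i : ι) : ℂ :=
  ∑ j ∈ range n, (g (pr j) : ℂ) * ψ i (pr j)

end Pool.Agent.Work.MP_6dc561_nt.AB
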