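import Pool.Agent.Work.MP_6dc561_nt.AB.Coset
import Pool.Agent.Work.MP_6dc561_nt.BC.Sum

/-!
# Rational primes in abelian fields
-/

set_option autoImplicit false

open NumberField IsDedekindDomain Ideal Polynomial

namespace Pool.Agent.Work.MP_6dc561_nt.AB

open Pool.Agent.Work.MP_6dc561_nt.BC
open scoped Pointwise

variable {q : ℕ} [NeZero q] {K : Type} [Field K] [NumberField K] {L : Type} [Field L]
  [NumberField L]

/-- the Frobenius of the cyclotomic field at a prime over `p` -/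
theorem exists_frob [IsCyclotomicExtension {q} ℚ L] {p : ℕ} (hp : p.Prime) (hpq : p.Coprime q)
    (P : Ideal (𝓞 L)) [hPm : P.IsMaximal] [hPo : P.LiesOver (PZ p)] :
    ∃ τ : Gal(L/ℚ), IsCyclotomicExtension.Rat.galEquivZMod q L τ = ZMod.unitOfCoprime p hpq ∧
      (∀ x : 𝓞 L, τ • x - x ^ p ∈ P) := by
  have hgal : IsGalois ℚ L := IsCyclotomicExtension.isGalois {q} ℚ L
  have hPne : P ≠ ⊥ := ne_bot_of_mem_primesOver (PZ_ne_bot hp) ⟨hPm.isPrime, hPo⟩
  have hfin : Finite (𝓞 L ⧸ P) := P.finiteQuotientOfFreeOfNeBot hPne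
  have hcard : Nat.card (ℤ ⧸ P.under ℤ) = p := by
    have h1 : P.under ℤ = PZ p := hPo.over.symm
    rw [h1]
    unfold PZ
    rw [Int.card_ideal_quot]
  obtain ⟨τ, hτ⟩ := IsArithFrobAt.exists_of_isInvariant ℤ Gal(L/ℚ) P
  have hmem : ∀ x : 𝓞 L, τ • x - x ^ p ∈ P := by
    intro x
    have := hτ x
    rw [hcard] at this
    exact this
  refine ⟨τ, ?_, hmem⟩
  have hζ := IsCyclotomicExtension.zeta_spec q ℚ L
  have hq : ((q : ℕ) : 𝓞 L) ∉ P := by
    intro h
    have h1 : (q : ℤ) ∈ PZ p := by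
      rw [hPo.over, Ideal.under_def, Ideal.mem_comap, map_natCast]
      exact h
    rw [mem_PZ] at h1
    have h2 : p ∣ q := by exact_mod_cast h1
    exact (Nat.Prime.coprime_iff_not_dvd hp).1 hpq h2
  have h1 := AlgHom.IsArithFrobAt.apply_of_pow_eq_one hτ (ζ := hζ.toInteger) (m := q)
    hζ.toInteger_isPrimitiveRoot.pow_eq_one hq
  rw [hcard] at h1
  have h2 := IsCyclotomicExtension.Rat.galEquivZMod_smul_of_pow_eq q L τ
    (x := hζ.toInteger) hζ.toInteger_isPrimitiveRoot.pow_eq_one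
  have h3 : hζ.toInteger ^ (IsCyclotomicExtension.Rat.galEquivZMod q L τ).val.val =
      hζ.toInteger ^ p := by
    rw [← h2]; exact h1
  rw [(hζ.toInteger_isPrimitiveRoot.isOfFinOrder (NeZero.ne _)).pow_inj_mod,
    ← hζ.toInteger_isPrimitiveRoot.eq_orderOf, ← ZMod.natCast_eq_natCast_iff',
    ZMod.natCast_val, ZMod.cast_id] at h3
  ext
  rw [ZMod.coe_unitOfCoprime]
  exact h3

/-- a finite domain in which `z ^ p = z` has at most `p` elements -/
theorem card_le_of_pow {F : Type*} [CommRing F] [IsDomain F] [Finite F] {p : ℕ} (hp : 1 < p)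
    (h : ∀ z : F, z ^ p = z) : Nat.card F ≤ p := by
  classical
  let _ : Fintype F := Fintype.ofFinite _
  have hdeg : (X ^ p - X : F[X]).natDegree = p := by
    have : (X : F[X]).natDegree < (X ^ p : F[X]).natDegree := by
      rw [natDegree_X_pow, natDegree_X]
      exact hp
    rw [natDegree_sub_eq_left_of_natDegree_lt this, natDegree_X_pow]
  have hne : (X ^ p - X : F[X]) ≠ 0 := by
    intro h0
    rw [h0, natDegree_zero] at hdeg
    omega
  have h8 : (Finset.univ : Finset F) ⊆ (X ^ p - X : F[X]).roots.toFinset := by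
    intro z _
    rw [Multiset.mem_toFinset, mem_roots hne, IsRoot.def, eval_sub, eval_pow, eval_X, h,
      sub_self]
  rw [Nat.card_eq_fintype_card, ← Finset.card_univ]
  refine (Finset.card_le_card h8).trans ((Multiset.toFinset_card_le _).trans ?_)
  exact (card_roots' _).trans hdeg.le

section sub

variable (q K L) in
/-- the subgroup of `(ZMod q)ˣ` that corresponds to the subfield `K` of the cyclotomic field -/
noncomputable def subK [Algebra K L] [IsCyclotomicExtension {q} ℚ L] : Subgroup (ZMod q)ˣ :=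
  ((IsScalarTower.toAlgHom ℚ K L).fieldRange.fixingSubgroup).map
    (IsCyclotomicExtension.Rat.galEquivZMod q L).toMonoidHom

variable [Algebra K L] [IsCyclotomicExtension {q} ℚ L]

theorem mem_subK (τ : Gal(L/ℚ)) : IsCyclotomicExtension.Rat.galEquivZMod q L τ ∈ subK q K L ↔
    ∀ x : K, τ (algebraMap K L x) = algebraMap K L x := by
  unfold subK
  rw [Subgroup.mem_map]
  constructor
  · rintro ⟨σ, hσ, h⟩ x
    have h1 : σ = τ := (IsCyclotomicExtension.Rat.galEquivZMod q L).injective h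
    rw [← h1]
    rw [IntermediateField.mem_fixingSubgroup_iff] at hσ
    exact hσ _ ⟨x, rfl⟩
  · intro h
    refine ⟨τ, ?_, rfl⟩
    rw [IntermediateField.mem_fixingSubgroup_iff]
    rintro _ ⟨x, rfl⟩
    exact h x

theorem index_subK : (subK q K L).index = Module.finrank ℚ K := by
  have hgal : IsGalois ℚ L := IsCyclotomicExtension.isGalois {q} ℚ L
  unfold subK
  rw [Subgroup.index_map_of_bijective (f := (IsCyclotomicExtension.Rat.galEquivZMod q L).toMonoidHom)
    (IsCyclotomicExtension.Rat.galEquivZMod q L).bijective]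
  rw [← IntermediateField.finrank_eq_fixingSubgroup_index]
  exact ((AlgEquiv.ofInjectiveField (IsScalarTower.toAlgHom ℚ K L)).toLinearEquiv.finrank_eq).symm

omit [NeZero q] [NumberField K] [NumberField L] [Algebra K L] [IsCyclotomicExtension {q} ℚ L] in
theorem normal_K (q : ℕ) (K L : Type) [Field K] [NumberField K] [Field L] [NumberField L]
    [Algebra K L] [IsCyclotomicExtension {q} ℚ L] : IsGalois ℚ K := by
  have hab : IsAbelianGalois ℚ L := IsCyclotomicExtension.isAbelianGalois {q} ℚ L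
  have := IsAbelianGalois.tower_bot ℚ K L
  infer_instance

/-- primes over a split prime have degree one -/
theorem absNorm_of_mem {p : ℕ} (hp : p.Prime) (hpq : p.Coprime q)
    (hu : ZMod.unitOfCoprime p hpq ∈ subK q K L) (w : (PZ p).primesOver (𝓞 K)) :
    absNorm w.1 = p := by
  have hwm : w.1.IsMaximal := by
    have := PZ_maximal hp
    exact primesOver.isMaximal w
  have hwo : w.1.LiesOver (PZ p) := w.2.2
  have hwne : w.1 ≠ ⊥ := ne_bot_of_mem_primesOver (PZ_ne_bot hp) w.2
  obtain ⟨P, hPm, hPo⟩ := exists_maximal_ideal_liesOver_of_isIntegral (S := 𝓞 L) w.1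
  have hPo' : P.LiesOver (PZ p) := LiesOver.trans P w.1 (PZ p)
  obtain ⟨τ, h1, h2⟩ := exists_frob (q := q) hp hpq P
  rw [← h1, mem_subK] at hu
  have h3 : ∀ x : 𝓞 K, x - x ^ p ∈ w.1 := by
    intro x
    have h4 := h2 (algebraMap (𝓞 K) (𝓞 L) x)
    have h5 : τ • algebraMap (𝓞 K) (𝓞 L) x = algebraMap (𝓞 K) (𝓞 L) x := by
      apply NumberField.RingOfIntegers.ext
      exact hu x
    rw [h5, ← map_pow, ← map_sub] at h4
    rw [hPo.over, Ideal.under_def, Ideal.mem_comap]
    exact h4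
  have hfin : Finite (𝓞 K ⧸ w.1) := w.1.finiteQuotientOfFreeOfNeBot hwne
  have hdom : IsDomain (𝓞 K ⧸ w.1) := Ideal.Quotient.isDomain w.1
  have h6 : ∀ z : 𝓞 K ⧸ w.1, z ^ p = z := by
    intro z
    obtain ⟨x, rfl⟩ := Ideal.Quotient.mk_surjective z
    rw [← map_pow, eq_comm, Ideal.Quotient.eq]
    exact h3 x
  have h7 : Nat.card (𝓞 K ⧸ w.1) ≤ p := card_le_of_pow hp.one_lt h6
  have h9 : absNorm w.1 ≤ p := by
    rw [absNorm_apply, Submodule.cardQuot_apply]
    exact h7
  have h10 := absNorm_over hp w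
  have h11 := one_le_f w
  apply le_antisymm h9
  rw [h10]
  exact Nat.le_self_pow (by omega) p

/-- ramification -/
theorem e_eq_one (q : ℕ) [NeZero q] {K : Type} [Field K] [NumberField K] (L : Type) [Field L]
    [NumberField L] [Algebra K L] [IsCyclotomicExtension {q} ℚ L] {p : ℕ} (hp : p.Prime) (hpq : p.Coprime q) (w : (PZ p).primesOver (𝓞 K)) :
    w.1.ramificationIdx ℤ = 1 := by
  have hwm : w.1.IsMaximal := by
    have := PZ_maximal hp
    exact primesOver.isMaximal w
  have hwo : w.1.LiesOver (PZ p) := w.2.2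
  obtain ⟨P, hPm, hPo⟩ := exists_maximal_ideal_liesOver_of_isIntegral (S := 𝓞 L) w.1
  have hPo' : P.LiesOver (PZ p) := LiesOver.trans P w.1 (PZ p)
  have : Fact p.Prime := ⟨hp⟩
  have hpq' : ¬ p ∣ q := (Nat.Prime.coprime_iff_not_dvd hp).1 hpq
  have hPp : P.IsPrime := hPm.isPrime
  have hPs : P.LiesOver (span {(p : ℤ)}) := hPo'
  have h1 := IsCyclotomicExtension.Rat.ramificationIdx_eq_of_not_dvd p L P hpq'
  have h2 := ramificationIdx_tower (R := ℤ) w.1 P
  rw [h1] at h2
  exact Nat.eq_one_of_mul_eq_one_right h2.symm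

/-- if a prime over `p` has degree one then `p` splits -/
theorem mem_of_absNorm {p : ℕ} (hp : p.Prime) (hpq : p.Coprime q)
    (w : (PZ p).primesOver (𝓞 K)) (hw : absNorm w.1 = p) :
    ZMod.unitOfCoprime p hpq ∈ subK q K L := by
  have hgal := normal_K q K L
  have hpm := PZ_maximal hp
  have hpp := PZ_prime hp
  have hwm : w.1.IsMaximal := primesOver.isMaximal w
  have hwp : w.1.IsPrime := w.2.1
  have hwo : w.1.LiesOver (PZ p) := w.2.2
  have hwne : w.1 ≠ ⊥ := ne_bot_of_mem_primesOver (PZ_ne_bot hp) w.2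
  obtain ⟨P, hPm, hPo⟩ := exists_maximal_ideal_liesOver_of_isIntegral (S := 𝓞 L) w.1
  have hPo' : P.LiesOver (PZ p) := LiesOver.trans P w.1 (PZ p)
  obtain ⟨τ, h1, h2⟩ := exists_frob (q := q) hp hpq P
  rw [← h1, mem_subK]
  set σ : Gal(K/ℚ) := τ.restrictNormal K with hσ
  have hcomm : ∀ x : 𝓞 K, algebraMap (𝓞 K) (𝓞 L) (σ • x) = τ • algebraMap (𝓞 K) (𝓞 L) x := by
    intro x
    apply NumberField.RingOfIntegers.ext
    exact AlgEquiv.restrictNormal_commutes τ K (x : K)
  have hcard : Nat.card (ℤ ⧸ w.1.under ℤ) = p := by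
    have h1 : w.1.under ℤ = PZ p := hwo.over.symm
    rw [h1]
    unfold PZ
    rw [Int.card_ideal_quot]
  have hfrob : IsArithFrobAt ℤ σ w.1 := by
    intro x
    rw [hcard]
    have h4 := h2 (algebraMap (𝓞 K) (𝓞 L) x)
    rw [← hcomm, ← map_pow, ← map_sub] at h4
    rw [hPo.over, Ideal.under_def, Ideal.mem_comap]
    exact h4
  have hstab := hfrob.mem_stabilizer
  have h5 : Nat.card (MulAction.stabilizer Gal(K/ℚ) w.1) = 1 := by
    rw [Ideal.card_stabilizer_eq (PZ p), ramificationIdxIn_eq_ramificationIdx (PZ p) w.1 Gal(K/ℚ),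
      inertiaDegIn_eq_inertiaDeg (PZ p) w.1 Gal(K/ℚ), e_eq_one q L hp hpq w]
    have h6 := absNorm_over hp w
    rw [hw] at h6
    have h7 : w.1.inertiaDeg ℤ = 1 := by
      have h8 : p ^ (w.1.inertiaDeg ℤ) = p ^ 1 := by rw [pow_one]; exact h6.symm
      exact Nat.pow_right_injective hp.two_le h8
    rw [h7]
  have h8 : σ = 1 := by
    have h9 : MulAction.stabilizer Gal(K/ℚ) w.1 = ⊥ := by
      rw [← Subgroup.card_eq_one]
      exact h5
    rw [h9, Subgroup.mem_bot] at hstab
    exact hstab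
  intro x
  have h10 := AlgEquiv.restrictNormal_commutes τ K x
  rw [← h10]
  have h11 : (AlgEquiv.restrictNormal τ K) x = x := by
    rw [← hσ, h8]
    rfl
  rw [h11]

end sub

/-- there are at most `[K : ℚ]` primes over `p` -/
theorem card_primesOver_le {p : ℕ} (hp : p.Prime) [Fintype ((PZ p).primesOver (𝓞 K))] :
    Fintype.card ((PZ p).primesOver (𝓞 K)) ≤ Module.finrank ℚ K := by
  have := PZ_maximal hp
  have h1 : ∑ w : (PZ p).primesOver (𝓞 K), w.1.ramificationIdx ℤ * w.1.inertiaDeg ℤ =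
      Module.finrank ℚ K := by
    rw [sum_ramification_inertia_eq_finrank]
    exact (IsFractionRing.finrank_eq ℤ ℚ (𝓞 K) K).symm
  rw [← h1, Fintype.card, Finset.card_eq_sum_ones]
  refine Finset.sum_le_sum fun w _ => ?_
  exact Right.one_le_mul (one_le_e w) (one_le_f w)

/-- the number of primes over a split prime -/
theorem card_primesOver_eq [Algebra K L] [IsCyclotomicExtension {q} ℚ L]
    {p : ℕ} (hp : p.Prime) (hpq : p.Coprime q)
    (hu : ZMod.unitOfCoprime p hpq ∈ subK q K L) [Fintype ((PZ p).primesOver (𝓞 K))] :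
    Fintype.card ((PZ p).primesOver (𝓞 K)) = Module.finrank ℚ K := by
  have := PZ_maximal hp
  have h1 : ∑ w : (PZ p).primesOver (𝓞 K), w.1.ramificationIdx ℤ * w.1.inertiaDeg ℤ =
      Module.finrank ℚ K := by
    rw [sum_ramification_inertia_eq_finrank]
    exact (IsFractionRing.finrank_eq ℤ ℚ (𝓞 K) K).symm
  rw [← h1, Fintype.card, Finset.card_eq_sum_ones]
  refine Finset.sum_congr rfl fun w _ => ?_
  have h2 := e_eq_one q L hp hpq w
  have h3 := absNorm_of_mem hp hpq hu w
  have h6 := absNorm_over hp w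
  rw [h3] at h6
  have h7 : w.1.inertiaDeg ℤ = 1 := by
    have h8 : p ^ (w.1.inertiaDeg ℤ) = p ^ 1 := by rw [pow_one]; exact h6.symm
    exact Nat.pow_right_injective hp.two_le h8
  rw [h2, h7]

end Pool.Agent.Work.MP_6dc561_nt.AB
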