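import Pool.Agent.Work.MP_6dc561_nt.AB.FSum

/-!
# The main theorem on characters, residue classes and abelian fields
-/

set_option autoImplicit false

open NumberField IsDedekindDomain Ideal Polynomial Finset

namespace Pool.Agent.Work.MP_6dc561_nt.AB

open Pool.Agent.Work.MP_6dc561_nt.AA
open Pool.Agent.Work.MP_6dc561_nt.PS (LipR abs_avg_le_one abs_frobAverage_le_one)

/-- residue classes -/
theorem coset_main (f : ℤ[X]) {R : ℝ} {Q : ℕ} {E : Finset Ch} {x : ℕ} {η : ℝ} (hη : 0 ≤ η)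
    (h : 2 ≤ η ∨ GoodAt f R Q E x η) {q : ℕ} [NeZero q] (hqQ : q ≤ Q) (H : Subgroup (ZMod q)ˣ)
    (hY : ∀ χ ∈ ann H, χ ≠ 1 → indCh χ ∉ E) (a : (ZMod q)ˣ) {G : ℝ → ℝ → ℝ} (hG : LipR R G) :
    |cosetAvg f H a G x - avgQ f 1 G x| ≤ 8 * H.index * η := by
  classical
  have hidx : 1 ≤ (H.index : ℝ) := by
    have : 1 ≤ H.index := by
      rw [← card_ann]
      refine card_pos.2 ⟨1, ?_⟩
      rw [mem_ann]
      intro u _
      exact MulChar.one_apply_coe u
    exact_mod_cast this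
  have hidx0 : (0 : ℝ) < H.index := by linarith
  rcases h with h | h
  · have a1 : |cosetAvg f H a G x| ≤ 1 := by
      unfold cosetAvg
      exact abs_avg_le_one _ _ fun p _ => hG.le_one _ _
    have a2 : |avgQ f 1 G x| ≤ 1 := by
      unfold avgQ
      exact abs_avg_le_one _ _ fun p _ => hG.le_one _ _
    have a3 := abs_sub (cosetAvg f H a G x) (avgQ f 1 G x)
    nlinarith
  set N : ℝ := ((goodUpToQ f 1 x).card : ℝ) with hN
  have hN0 : 0 < N := by rw [hN]; exact_mod_cast h.pos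
  set g : ℕ → ℝ := fun p => G (aQ f 1 p / Real.sqrt p) (bQ f 1 p / p) with hg
  have hηN : 0 ≤ η * N := by positivity
  have b1 := coset_sum f x g (fun p => hG.le_one _ _) hqQ hηN
    (fun y hy hyE => h.sum y hy hyE G hG) h.log_le H hY a
  have b2 := coset_sum f x (fun _ => 1) (fun p => by rw [abs_one]) hqQ hηN
    (fun y hy hyE => by
      have := h.one_sum y hy hyE
      simpa using this) h.log_le H hY a
  have e1 : ∑ p ∈ goodUpToQ f 1 x, (1 : ℝ) = N := by
    rw [sum_const, nsmul_eq_mul, mul_one]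
  have e2 : ∑ p ∈ (goodUpToQ f 1 x).filter (InCoset H a), (1 : ℝ) =
      ((goodUpToQ f 1 x).filter (InCoset H a)).card := by
    rw [sum_const, nsmul_eq_mul, mul_one]
  rw [e1, e2] at b2
  set Sa : ℝ := ∑ p ∈ (goodUpToQ f 1 x).filter (InCoset H a), g p with hSa
  set Na : ℝ := (((goodUpToQ f 1 x).filter (InCoset H a)).card : ℝ) with hNa
  have hSN : |∑ p ∈ goodUpToQ f 1 x, g p| ≤ N := by
    calc |∑ p ∈ goodUpToQ f 1 x, g p| ≤ ∑ p ∈ goodUpToQ f 1 x, |g p| := abs_sum_le_sum_abs _ _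
      _ ≤ ∑ p ∈ goodUpToQ f 1 x, 1 := sum_le_sum fun p _ => hG.le_one _ _
      _ = N := by rw [sum_const, nsmul_eq_mul, mul_one]
  have hSaN : |Sa| ≤ Na := by
    calc |Sa| ≤ ∑ p ∈ (goodUpToQ f 1 x).filter (InCoset H a), |g p| := abs_sum_le_sum_abs _ _
      _ ≤ ∑ p ∈ (goodUpToQ f 1 x).filter (InCoset H a), 1 := sum_le_sum fun p _ => hG.le_one _ _
      _ = Na := by rw [sum_const, nsmul_eq_mul, mul_one]
  have key := ratio (S' := H.index * Sa) (N' := H.index * Na) (S := ∑ p ∈ goodUpToQ f 1 x, g p)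
    (N := N) (ε := 2 * H.index * η) hN0 (by positivity) hSN (by
      rw [abs_mul, Nat.abs_cast]
      exact mul_le_mul_of_nonneg_left hSaN hidx0.le) (b1.trans (le_of_eq (by ring)))
      (b2.trans (le_of_eq (by ring)))
  have e3 : cosetAvg f H a G x = H.index * Sa / (H.index * Na) := by
    rw [mul_div_mul_left _ _ hidx0.ne']
    rfl
  have e4 : avgQ f 1 G x = (∑ p ∈ goodUpToQ f 1 x, g p) / N := rfl
  rw [e3, e4]
  exact key.trans (le_of_eq (by ring))

/-- the characters of `K` -/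
theorem isCharOf {q : ℕ} [NeZero q] {K : Type} [Field K] [NumberField K] {L : Type} [Field L]
    [NumberField L] [Algebra K L] [IsCyclotomicExtension {q} ℚ L] {χ : DirichletCharacter ℂ q}
    (hχ : χ ∈ ann (subK q K L)) : IsCharOf K (indCh χ).2 := by
  unfold IsCharOf
  refine (Nat.divisors q).finite_toSet.subset ?_
  rintro p ⟨hp, ⟨v, hv⟩, hne⟩
  rw [mem_coe, Nat.mem_divisors]
  refine ⟨?_, NeZero.ne q⟩
  by_contra hdvd
  have hpq : p.Coprime q := (Nat.Prime.coprime_iff_not_dvd hp).2 hdvd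
  apply hne
  have h1 : BC.ch v = p := by
    unfold BC.ch
    have h2 : absNorm v.asIdeal = p := hv
    rw [h2]
    exact hp.minFac_eq
  obtain ⟨w, hw⟩ := BC.exists_toH hp h1
  have h3 : absNorm w.1 = p := by
    have h4 : (BC.toH hp w).asIdeal = v.asIdeal := by rw [hw]
    have h5 : (BC.toH hp w).asIdeal = w.1 := rfl
    rw [← h5, h4]
    exact hv
  have h6 := mem_of_absNorm (q := q) (L := L) hp hpq w h3
  have h7 := mem_ann.1 hχ _ h6
  rw [ZMod.coe_unitOfCoprime] at h7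
  rw [← ev_indCh χ hpq] at h7
  exact h7

/-- abelian fields -/
theorem field_main (f : ℤ[X]) {R : ℝ} {Q : ℕ} {E : Finset Ch} {x : ℕ} {η : ℝ} (hη : 0 ≤ η)
    (h : 2 ≤ η ∨ GoodAt f R Q E x η) {q : ℕ} [NeZero q] (hqQ : q ≤ Q)
    (K : Type) [Field K] [NumberField K] (L : Type) [Field L]
    [NumberField L] [Algebra K L] [IsCyclotomicExtension {q} ℚ L]
    (hE : ∀ y ∈ E, ¬ IsCharOf K y.2) {G : ℝ → ℝ → ℝ} (hG : LipR R G) :
    |frobAverage (f.map (Int.castRingHom (𝓞 K))) 1 G x - avgQ f 1 G x| ≤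
      16 * Module.finrank ℚ K * η := by
  classical
  have hn1 : 1 ≤ (Module.finrank ℚ K : ℝ) := by
    have : 0 < Module.finrank ℚ K := Module.finrank_pos
    exact_mod_cast this
  rcases h with h | h
  · have a1 := abs_frobAverage_le_one (f.map (Int.castRingHom (𝓞 K))) x hG.le_one
    have a2 : |avgQ f 1 G x| ≤ 1 := by
      unfold avgQ
      exact abs_avg_le_one _ _ fun p _ => hG.le_one _ _
    have a3 := abs_sub (frobAverage (f.map (Int.castRingHom (𝓞 K))) 1 G x) (avgQ f 1 G x)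
    nlinarith
  set H : Subgroup (ZMod q)ˣ := subK q K L with hH
  set n : ℕ := Module.finrank ℚ K with hn
  have hidx : H.index = n := index_subK
  have hY : ∀ χ ∈ ann H, χ ≠ 1 → indCh χ ∉ E := fun χ hχ _ hmem => hE _ hmem (isCharOf hχ)
  set N : ℝ := ((goodUpToQ f 1 x).card : ℝ) with hN
  have hN0 : 0 < N := by rw [hN]; exact_mod_cast h.pos
  set g : ℕ → ℝ := fun p => G (aQ f 1 p / Real.sqrt p) (bQ f 1 p / p) with hg
  have hηN : 0 ≤ η * N := by positivity
  have b1 := coset_sum f x g (fun p => hG.le_one _ _) hqQ hηN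
    (fun y hy hyE => h.sum y hy hyE G hG) h.log_le H hY 1
  have b2 := coset_sum f x (fun _ => 1) (fun p => by rw [abs_one]) hqQ hηN
    (fun y hy hyE => by
      have := h.one_sum y hy hyE
      simpa using this) h.log_le H hY 1
  have hfin := BC.goodUpTo_finite (f.map (Int.castRingHom (𝓞 K))) 1 x
  set A : Finset (HeightOneSpectrum (𝓞 K)) := hfin.toFinset with hA
  have hmem : ∀ w, w ∈ A ↔ w ∈ goodUpTo (f.map (Int.castRingHom (𝓞 K))) 1 x := by
    intro w
    rw [hA, Set.Finite.mem_toFinset]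
  set Hw : HeightOneSpectrum (𝓞 K) → ℝ := fun v =>
    G (frobTrace (f.map (Int.castRingHom (𝓞 K))) 1 v / Real.sqrt (nrm v))
      (frobSecond (f.map (Int.castRingHom (𝓞 K))) 1 v / nrm v) with hHw
  have hHg : ∀ w : HeightOneSpectrum (𝓞 K), absNorm w.asIdeal = BC.ch w → Hw w = g (BC.ch w) := by
    intro w hw
    obtain ⟨e1, e2⟩ := BC.frob_degree_one f w hw
    simp only [hHw, hg]
    rw [e1, e2]
    unfold nrm
    rw [hw]
  have c1 := sum_bound q L f x A hmem Hw g (fun w => hG.le_one _ _) hHg hqQ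
  have c2 := sum_bound q L f x A hmem (fun _ => 1) (fun _ => 1) (fun w => by rw [abs_one])
    (fun _ _ => rfl) hqQ
  rw [hidx] at b1 b2
  rw [← hH] at c1 c2
  have e1 : ∑ p ∈ goodUpToQ f 1 x, (1 : ℝ) = N := by
    rw [sum_const, nsmul_eq_mul, mul_one]
  have e2 : ∑ w ∈ A, (1 : ℝ) = A.card := by
    rw [sum_const, nsmul_eq_mul, mul_one]
  rw [e1] at b2
  rw [e2] at c2
  set S : ℝ := ∑ p ∈ goodUpToQ f 1 x, g p with hS
  set SK : ℝ := ∑ w ∈ A, Hw w with hSK
  set Sa : ℝ := ∑ p ∈ (goodUpToQ f 1 x).filter (InCoset H 1), g p with hSa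
  set Na : ℝ := ∑ p ∈ (goodUpToQ f 1 x).filter (InCoset H 1), (1 : ℝ) with hNa
  have hSN : |S| ≤ N := by
    calc |S| ≤ ∑ p ∈ goodUpToQ f 1 x, |g p| := abs_sum_le_sum_abs _ _
      _ ≤ ∑ p ∈ goodUpToQ f 1 x, 1 := sum_le_sum fun p _ => hG.le_one _ _
      _ = N := by rw [sum_const, nsmul_eq_mul, mul_one]
  have hSKN : |SK| ≤ A.card := by
    calc |SK| ≤ ∑ w ∈ A, |Hw w| := abs_sum_le_sum_abs _ _
      _ ≤ ∑ w ∈ A, 1 := sum_le_sum fun w _ => hG.le_one _ _
      _ = A.card := by rw [sum_const, nsmul_eq_mul, mul_one]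
  have hn0 : (0 : ℝ) ≤ n := Nat.cast_nonneg _
  have d : (n : ℝ) * (Real.sqrt x + 2 * Real.log Q) ≤ n * (η * N + η * N) :=
    mul_le_mul_of_nonneg_left (add_le_add h.sqrt_le h.log_le) hn0
  have hsum1 : |SK - S| ≤ 4 * n * η * N := by
    have e : SK - S = (SK - n * Sa) + (n * Sa - S) := by ring
    rw [e]
    refine (abs_add_le _ _).trans ?_
    calc _ ≤ n * (η * N + η * N) + n * (η * N + η * N) :=
          add_le_add (c1.trans d) (by exact b1)
      _ = 4 * n * η * N := by ring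
  have hsum2 : |(A.card : ℝ) - N| ≤ 4 * n * η * N := by
    have e : (A.card : ℝ) - N = (A.card - n * Na) + (n * Na - N) := by ring
    rw [e]
    refine (abs_add_le _ _).trans ?_
    calc _ ≤ n * (η * N + η * N) + n * (η * N + η * N) :=
          add_le_add (c2.trans d) (by exact b2)
      _ = 4 * n * η * N := by ring
  have key := ratio hN0 (Nat.cast_nonneg A.card) hSN hSKN hsum1 hsum2
  have havg : frobAverage (f.map (Int.castRingHom (𝓞 K))) 1 G x = SK / A.card := by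
    unfold frobAverage
    rw [finsum_mem_eq_finite_toFinset_sum _ hfin, Set.ncard_eq_toFinset_card _ hfin]
  have havgQ : avgQ f 1 G x = S / N := rfl
  rw [havg, havgQ]
  exact key.trans (le_of_eq (by ring))

theorem isCyclotomic (q : ℕ) [NeZero q] : IsCyclotomicExtension {q} ℚ (CyclotomicField q ℚ) := by
  have h := CyclotomicField.isCyclotomicExtension q ℚ
  have e : (CyclotomicField.algebra q ℚ : Algebra ℚ (CyclotomicField q ℚ)) =
      DivisionRing.toRatAlgebra := Subsingleton.elim _ _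
  rw [e] at h
  exact h

end Pool.Agent.Work.MP_6dc561_nt.AB
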